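import Pool.Agent.helper56.CT.Fin1

/-!
# `c_2` at `q = 2` vanishes for 4-regular graphs with a nearly bipartite part

The definitions (graph polynomial, number of zeros, `C2Is`, `decompletion`, `FourRegular`,
`PrimeAncestor`, `HasNearBipartitePart`, `ThreeFromBipartite`, `ContainsK33`) are in
`Pool/Agent/helper56/CT/Problem.lean`.
-/

namespace Pool.Agent.Results.MP_45d809_mp.NearBipartite

open CT

/-- For every 4-regular graph `G` on at least six vertices with a nearly bipartite part and every
vertex `v`: `c_2^{(2)}(G - v) = 0`, so it is not `-1`. Hence a prime ancestor with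
`c_2^{(2)} = -1` which has a nearly bipartite part, or becomes bipartite after the deletion of at
most three edges, or contains `K_{3,3}`, is isomorphic to `K_5`. -/
theorem result :
    (∀ (V : Type) [Fintype V] [DecidableEq V] (G : SimpleGraph V),
      FourRegular G → 6 ≤ Fintype.card V → HasNearBipartitePart G → ∀ v : V,
        C2Is (decompletion G v) (ZMod 2) 0 ∧ ¬ C2Is (decompletion G v) (ZMod 2) (-1)) ∧
    (∀ (V : Type) [Fintype V] [DecidableEq V] (G : SimpleGraph V), PrimeAncestor G →
      HasNearBipartitePart G ∨ ThreeFromBipartite G ∨ ContainsK33 G → ∀ v : V,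
        C2Is (decompletion G v) (ZMod 2) (-1) → Nonempty (G ≃g (⊤ : SimpleGraph (Fin 5)))) :=
  ⟨fun _ _ _ G hG hn h v => fin_near G hG hn h v,
    fun _ _ _ G hG h v h2 => fin_near_prime G hG h v h2⟩

end Pool.Agent.Results.MP_45d809_mp.NearBipartite
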